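import Pool.Agent.L0h7.RG.Stm

/-! # Module KNR of the project RG: negative `K`-groups of regular rings vanish -/

set_option autoImplicit false

open CategoryTheory

noncomputable section

namespace Pool.Agent.L0h81.RG

open Pool.Agent.Y75.NK Pool.Agent.L0h7.KN Pool.Agent.L0h7.RG

/-- the free group with one generator -/
def fe : FreeGroup (Fin 1) ≃* Multiplicative ℤ := FreeGroup.mulEquivIntOfUnique

theorem io_comp (A : Type) [Ring A] {F H : Type} [Group F] [Group H] (e : F →* H) :
    (MonoidAlgebra.mapDomainRingHom A e).comp (io A F) = io A H := by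
  apply RingHom.ext
  intro a
  show MonoidAlgebra.mapDomainRingHom A e (MonoidAlgebra.single 1 a) = MonoidAlgebra.single 1 a
  rw [MonoidAlgebra.mapDomainRingHom_apply, MonoidAlgebra.mapDomain_single, map_one]

/-- all classes over the Laurent polynomials come from the coefficients -/
theorem surj (hK : S_K0S) (A : Type) [Ring A] (hA : Reg A) :
    Function.Surjective (K0.map (io A (Multiplicative ℤ))) := by
  intro y
  obtain ⟨z, hz⟩ := hK A hA 1
    (K0.map (MonoidAlgebra.mapDomainRingHom A (fe.symm : Multiplicative ℤ →* FreeGroup (Fin 1))) y)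
  refine ⟨z, ?_⟩
  rw [← io_comp A (fe : FreeGroup (Fin 1) →* Multiplicative ℤ), K0.map_comp,
    AddMonoidHom.comp_apply, hz, ← AddMonoidHom.comp_apply, ← K0.map_comp,
    ← MonoidAlgebra.mapDomainRingHom_comp]
  have h : ((fe : FreeGroup (Fin 1) →* Multiplicative ℤ).comp
      (fe.symm : Multiplicative ℤ →* FreeGroup (Fin 1))) = MonoidHom.id _ := by
    apply MonoidHom.ext
    intro x
    exact fe.apply_symm_apply x
  rw [h, MonoidAlgebra.mapDomainRingHom_id, K0.map_id]
  rfl

theorem t_KNR : S_K0S → S_RGZ → S_KNR := by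
  intro hK hR
  have key : ∀ (m : ℕ) (A : Type) [Ring A], Reg A →
      ∀ x : (Kneg (m + 1)).obj (RingCat.of A), x = 0 := by
    intro m
    induction m with
    | zero =>
      intro A _ hA x
      obtain ⟨y, rfl⟩ := QuotientAddGroup.mk'_surjective (polySub K0F (RingCat.of A)) x
      refine (QuotientAddGroup.eq_zero_iff _).2 ?_
      obtain ⟨z, hz⟩ := surj hK A hA y
      refine AddSubgroup.mem_sup_left ?_
      refine ⟨K0.map (MonoidAlgebra.singleOneRingHom : A →+* MonoidAlgebra A (Multiplicative ℕ)) z,
        ?_⟩
      have h1 : (MonoidAlgebra.mapDomainRingHom A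
          (AddMonoidHom.toMultiplicative (Nat.castAddMonoidHom ℤ))).comp
          (MonoidAlgebra.singleOneRingHom : A →+* MonoidAlgebra A (Multiplicative ℕ)) =
          io A (Multiplicative ℤ) := by
        apply RingHom.ext
        intro a
        show MonoidAlgebra.mapDomainRingHom A _ (MonoidAlgebra.single 1 a) =
          MonoidAlgebra.single 1 a
        rw [MonoidAlgebra.mapDomainRingHom_apply, MonoidAlgebra.mapDomain_single, map_one]
      have h2 := DFunLike.congr_fun (K0.map_comp (MonoidAlgebra.mapDomainRingHom A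
          (AddMonoidHom.toMultiplicative (Nat.castAddMonoidHom ℤ)))
          (MonoidAlgebra.singleOneRingHom : A →+* MonoidAlgebra A (Multiplicative ℕ))) z
      rw [h1, hz] at h2
      exact h2.symm
    | succ m ih =>
      intro A _ hA x
      obtain ⟨y, rfl⟩ := QuotientAddGroup.mk'_surjective (polySub (Kneg (m + 1)) (RingCat.of A)) x
      have h := ih (MonoidAlgebra A (Multiplicative ℤ)) (hR A hA) y
      exact (congrArg (QuotientAddGroup.mk' (polySub (Kneg (m + 1)) (RingCat.of A))) h).trans
        (map_zero (QuotientAddGroup.mk' (polySub (Kneg (m + 1)) (RingCat.of A))))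
  exact fun A _ hA m x => key m A hA x

end Pool.Agent.L0h81.RG
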